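import Mathlib
import Pool.Agent.W492.KC.Defs
import Pool.Agent.W225.KC.Nil

/-!
# The symmetric groups act on the tensor powers of an object of a symmetric monoidal category
-/

set_option autoImplicit false
set_option linter.unusedSectionVars false

open CategoryTheory MonoidalCategory

namespace Pool.Agent.W481.KCAct

open Pool.Agent.W492.MT (tpow)
open Pool.Agent.W492.KC

universe v u

/-! ## The abstract lemma -/

section perm

open Equiv Equiv.Perm

theorem up_zero {n : ℕ} (σ : Perm (Fin n)) : up σ 0 = 0 := by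
  simp [up]

theorem up_succ {n : ℕ} (σ : Perm (Fin n)) (i : Fin n) : up σ i.succ = (σ i).succ := by
  simp [up]

theorem up_mul {n : ℕ} (σ τ : Perm (Fin n)) : up (σ * τ) = up σ * up τ := by
  ext i
  refine Fin.cases ?_ (fun j => ?_) i
  · simp [up_zero]
  · simp [up_succ]

theorem up_one {n : ℕ} : up (1 : Perm (Fin n)) = 1 := by
  ext i
  refine Fin.cases ?_ (fun j => ?_) i
  · simp [up_zero]
  · simp [up_succ]

theorem up_swap {n : ℕ} (i j : Fin n) : up (swap i j) = swap i.succ j.succ := by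
  ext k
  refine Fin.cases ?_ (fun l => ?_) k
  · rw [up_zero, swap_apply_of_ne_of_ne (Fin.succ_ne_zero i).symm (Fin.succ_ne_zero j).symm]
  · rw [up_succ]
    simp only [swap_apply_def, Fin.succ_inj]
    split_ifs <;> rfl

theorem exists_up {n : ℕ} (σ : Perm (Fin (n + 1))) (h : σ 0 = 0) : ∃ τ, σ = up τ := by
  refine ⟨(decomposeFin σ).2, ?_⟩
  have h1 : σ = decomposeFin.symm (decomposeFin σ) := (Equiv.symm_apply_apply _ _).symm
  have h2 : (decomposeFin σ).1 = 0 := by
    have h3 : decomposeFin.symm ((decomposeFin σ).1, (decomposeFin σ).2) 0 = (decomposeFin σ).1 :=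
      decomposeFin_symm_apply_zero _ _
    rw [Prod.mk.eta, Equiv.symm_apply_apply, h] at h3
    exact h3.symm
  conv_lhs => rw [h1]
  rw [up, ← h2]

theorem dec_eq {n : ℕ} (j : Fin (n + 1)) (τ : Perm (Fin n)) :
    decomposeFin (swap 0 j * up τ) = (j, τ) := by
  rw [← Equiv.eq_symm_apply]
  ext i
  refine Fin.cases ?_ (fun k => ?_) i
  · simp [up_zero]
  · simp [up_succ]

theorem eq_swap_mul {n : ℕ} (σ : Perm (Fin (n + 1))) : ∃ j τ, σ = swap 0 j * up τ := by
  refine ⟨(decomposeFin σ).1, (decomposeFin σ).2, ?_⟩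
  apply decomposeFin.injective
  rw [dec_eq]

theorem conj_swap {n : ℕ} (i : Fin (n + 1)) :
    swap (0 : Fin (n + 2)) i.succ = up (swap 0 i) * swap 0 1 * up (swap 0 i) := by
  have h := swap_apply_apply (up (swap (0 : Fin (n + 1)) i)) 0 1
  have h0 : up (swap (0 : Fin (n + 1)) i) 0 = 0 := up_zero _
  have h1 : up (swap (0 : Fin (n + 1)) i) 1 = i.succ := by
    rw [← Fin.succ_zero_eq_one, up_succ, swap_apply_left]
  have h2 : (up (swap (0 : Fin (n + 1)) i))⁻¹ = up (swap (0 : Fin (n + 1)) i) := by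
    rw [inv_eq_iff_mul_eq_one, ← up_mul, swap_mul_self, up_one]
  rw [h0, h1, h2] at h
  exact h

variable {M : Type*} [Monoid M] {n : ℕ}

/-- the images of the transpositions `(0 j)`. -/
def TT (ψ : Perm (Fin (n + 1)) →* M) (s : M) : Fin (n + 2) → M :=
  Fin.cases 1 (fun i => ψ (swap 0 i) * s * ψ (swap 0 i))

/-- the extension of `ψ`. -/
def PP (ψ : Perm (Fin (n + 1)) →* M) (s : M) (σ : Perm (Fin (n + 2))) : M :=
  TT ψ s (decomposeFin σ).1 * ψ (decomposeFin σ).2

theorem TT_zero (ψ : Perm (Fin (n + 1)) →* M) (s : M) : TT ψ s 0 = 1 := rfl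

theorem TT_succ (ψ : Perm (Fin (n + 1)) →* M) (s : M) (i : Fin (n + 1)) :
    TT ψ s i.succ = ψ (swap 0 i) * s * ψ (swap 0 i) := rfl

theorem TT_one (ψ : Perm (Fin (n + 1)) →* M) (s : M) : TT ψ s 1 = s := by
  rw [← Fin.succ_zero_eq_one, TT_succ, swap_self]
  change ψ 1 * s * ψ 1 = s
  rw [map_one, one_mul, mul_one]

theorem PP_eq (ψ : Perm (Fin (n + 1)) →* M) (s : M) (j : Fin (n + 2)) (τ : Perm (Fin (n + 1))) :
    PP ψ s (swap 0 j * up τ) = TT ψ s j * ψ τ := by
  rw [PP, dec_eq]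

theorem PP_up (ψ : Perm (Fin (n + 1)) →* M) (s : M) (τ : Perm (Fin (n + 1))) :
    PP ψ s (up τ) = ψ τ := by
  have h := PP_eq ψ s 0 τ
  rw [swap_self, TT_zero, one_mul] at h
  exact h

theorem PP_swap (ψ : Perm (Fin (n + 1)) →* M) (s : M) :
    PP ψ s (swap 0 1) = s := by
  have h := PP_eq ψ s 1 1
  rw [up_one, mul_one, TT_one, map_one, mul_one] at h
  exact h

theorem inv1 (ψ : Perm (Fin (n + 1)) →* M) (i : Fin (n + 1)) :
    ψ (swap 0 i) * ψ (swap 0 i) = 1 := by
  rw [← map_mul, swap_mul_self, map_one]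

theorem PP_up_mul (ψ : Perm (Fin (n + 1)) →* M) (s : M)
    (hc : ∀ τ : Perm (Fin n), s * ψ (up τ) = ψ (up τ) * s)
    (ρ : Perm (Fin (n + 1))) (σ : Perm (Fin (n + 2))) :
    PP ψ s (up ρ * σ) = ψ ρ * PP ψ s σ := by
  obtain ⟨j, τ, rfl⟩ := eq_swap_mul σ
  rw [PP_eq]
  refine Fin.cases ?_ (fun i => ?_) j
  · rw [swap_self]
    change PP ψ s (up ρ * up τ) = _
    rw [← up_mul, PP_up, map_mul, TT_zero, one_mul]
  · have h1 : up ρ * (swap 0 i.succ * up τ) = swap 0 (ρ i).succ * up (ρ * τ) := by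
      rw [up_mul, ← mul_assoc, ← mul_assoc]
      congr 1
      rw [mul_swap_eq_swap_mul, up_zero, up_succ]
    rw [h1, PP_eq, TT_succ, TT_succ, map_mul, ← mul_assoc, ← mul_assoc]
    congr 1
    obtain ⟨κ, hκ⟩ := exists_up (swap 0 (ρ i) * ρ * swap 0 i) (by simp)
    have h2 := hc κ
    rw [← hκ, map_mul, map_mul] at h2
    calc ψ (swap 0 (ρ i)) * s * ψ (swap 0 (ρ i)) * ψ ρ
        = ψ (swap 0 (ρ i)) * (s * (ψ (swap 0 (ρ i)) * ψ ρ * ψ (swap 0 i))) * ψ (swap 0 i) := by
          simp only [mul_assoc]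
          rw [inv1, mul_one]
      _ = ψ ρ * (ψ (swap 0 i) * s * ψ (swap 0 i)) := by
          rw [h2]
          simp only [mul_assoc]
          rw [← mul_assoc (ψ (swap 0 (ρ i))), inv1, one_mul]

theorem PP_swap_mul (ψ : Perm (Fin (n + 1)) →* M) (s : M) (hs : s * s = 1)
    (hc : ∀ τ : Perm (Fin n), s * ψ (up τ) = ψ (up τ) * s)
    (hb : n ≠ 0 → s * ψ (swap 0 1) * s = ψ (swap 0 1) * s * ψ (swap 0 1))
    (σ : Perm (Fin (n + 2))) :
    PP ψ s (swap 0 1 * σ) = s * PP ψ s σ := by
  obtain ⟨j, τ, rfl⟩ := eq_swap_mul σ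
  rw [PP_eq]
  refine Fin.cases ?_ (fun i => ?_) j
  · rw [swap_self]
    change PP ψ s (swap 0 1 * up τ) = _
    rw [PP_eq, TT_one, TT_zero, one_mul]
  · rcases n with _ | m
    · have hi : i = 0 := Subsingleton.elim (α := Fin 1) _ _
      subst hi
      rw [Fin.succ_zero_eq_one, ← mul_assoc, swap_mul_self, one_mul, PP_up, TT_one, ← mul_assoc,
        hs, one_mul]
    · refine Fin.cases ?_ (fun k => ?_) i
      · rw [Fin.succ_zero_eq_one, ← mul_assoc, swap_mul_self, one_mul, PP_up, TT_one, ← mul_assoc,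
          hs, one_mul]
      · have h1 : swap (0 : Fin (m + 3)) 1 * (swap 0 k.succ.succ * up τ) =
            swap 0 k.succ.succ * up (swap 0 k.succ * τ) := by
          rw [up_mul, ← mul_assoc, ← mul_assoc]
          congr 1
          rw [up_swap, Fin.succ_zero_eq_one]
          have h2 := swap_mul_eq_mul_swap (swap (0 : Fin (m + 3)) k.succ.succ) 0 1
          rw [h2]
          congr 1
          rw [swap_inv, swap_apply_left, swap_apply_of_ne_of_ne, swap_comm]
          · exact one_ne_zero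
          · rw [← Fin.succ_zero_eq_one]
            intro h
            exact Fin.succ_ne_zero k (Fin.succ_injective _ h).symm
        rw [h1, PP_eq, map_mul, ← mul_assoc, ← mul_assoc]
        congr 1
        -- now  T * a = s * T
        have hb' := hb (Nat.succ_ne_zero m)
        have hcj := conj_swap (n := m) k
        have ha : ψ (swap 0 k.succ) = ψ (up (swap 0 k)) * ψ (swap 0 1) * ψ (up (swap 0 k)) := by
          rw [hcj, map_mul, map_mul]
        have hcc : ψ (up (swap 0 k)) * ψ (up (swap 0 k)) = 1 := by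
          rw [← map_mul, ← up_mul, swap_mul_self, up_one, map_one]
        have hck := hc (swap 0 k)
        have key : s * ψ (swap 0 k.succ) * s = ψ (swap 0 k.succ) * s * ψ (swap 0 k.succ) := by
          rw [ha]
          generalize ψ (up (swap 0 k)) = c at *
          generalize ψ (swap 0 1) = t at *
          calc s * (c * t * c) * s = (s * c) * t * (c * s) := by simp only [mul_assoc]
            _ = (c * s) * t * (s * c) := by rw [hck]
            _ = c * (s * t * s) * c := by simp only [mul_assoc]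
            _ = c * t * s * t * c := by rw [hb']; simp only [mul_assoc]
            _ = c * t * (c * c) * s * t * c := by rw [hcc, mul_one]
            _ = c * t * c * (c * s) * t * c := by simp only [mul_assoc]
            _ = c * t * c * s * (c * t * c) := by rw [← hck]; simp only [mul_assoc]
        rw [TT_succ]
        calc ψ (swap 0 k.succ) * s * ψ (swap 0 k.succ) * ψ (swap 0 k.succ)
            = ψ (swap 0 k.succ) * s := by rw [mul_assoc, inv1, mul_one]
          _ = s * s * (ψ (swap 0 k.succ) * s) := by rw [hs, one_mul]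
          _ = s * (s * ψ (swap 0 k.succ) * s) := by simp only [mul_assoc]
          _ = s * (ψ (swap 0 k.succ) * s * ψ (swap 0 k.succ)) := by rw [key]

/-- The abstract lemma. -/
theorem extend (ψ : Perm (Fin (n + 1)) →* M) (s : M) (hs : s * s = 1)
    (hc : ∀ τ : Perm (Fin n), s * ψ (up τ) = ψ (up τ) * s)
    (hb : n ≠ 0 → s * ψ (swap 0 1) * s = ψ (swap 0 1) * s * ψ (swap 0 1)) :
    ∃ Ψ : Perm (Fin (n + 2)) →* M, (∀ τ, Ψ (up τ) = ψ τ) ∧ Ψ (swap 0 1) = s := by
  have hmul : ∀ g σ, PP ψ s (g * σ) = PP ψ s g * PP ψ s σ := by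
    intro g σ
    have hup : ∀ ρ σ, PP ψ s (up ρ * σ) = ψ ρ * PP ψ s σ := PP_up_mul ψ s hc
    have hsw : ∀ σ, PP ψ s (swap 0 1 * σ) = s * PP ψ s σ := PP_swap_mul ψ s hs hc hb
    have hT : ∀ (j : Fin (n + 2)) σ, PP ψ s (swap 0 j * σ) = TT ψ s j * PP ψ s σ := by
      intro j σ
      refine Fin.cases ?_ (fun i => ?_) j
      · rw [swap_self, TT_zero, one_mul]; rfl
      · rw [conj_swap, mul_assoc, mul_assoc, hup, hsw, hup, TT_succ]
        simp only [mul_assoc]
    obtain ⟨j, τ, rfl⟩ := eq_swap_mul g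
    rw [mul_assoc, hT, hup, PP_eq, mul_assoc]
  refine ⟨⟨⟨PP ψ s, ?_⟩, hmul⟩, PP_up ψ s, PP_swap ψ s⟩
  have h := PP_up ψ s 1
  rw [up_one, map_one] at h
  exact h

end perm

/-! ## The action -/

section act

variable {T : Type u} [Category.{v} T] [MonoidalCategory T] [SymmetricCategory T] (X : T)

/-- the condition on the transposition. -/
def CC : ∀ n : ℕ, (Equiv.Perm (Fin (n + 1)) →* End (tpow X (n + 1))) → Prop
  | 0, _ => True
  | n + 1, g => g (Equiv.swap 0 1) = swp X (tpow X n)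

/-- the stages of the construction. -/
def St (n : ℕ) : Type v :=
  {p : (Equiv.Perm (Fin n) →* End (tpow X n)) × (Equiv.Perm (Fin (n + 1)) →* End (tpow X (n + 1)))
    // (∀ σ, p.2 (up σ) = (X ◁ (p.1 σ : tpow X n ⟶ tpow X n) : X ⊗ tpow X n ⟶ X ⊗ tpow X n)) ∧
      CC X n p.2}

/-- tensoring with `X`. -/
def wl (Y : T) : End Y →* End (X ⊗ Y) where
  toFun f := X ◁ f
  map_one' := MonoidalCategory.whiskerLeft_id _ _
  map_mul' _ _ := MonoidalCategory.whiskerLeft_comp _ _ _

/-- tensoring with `X` on the endomorphisms of the tensor powers. -/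
def ww (n : ℕ) : End (tpow X (n + 1)) →* End (tpow X (n + 2)) := wl X (tpow X (n + 1))

/-- the permutation of the first two factors of a tensor power. -/
def sw (n : ℕ) : End (tpow X (n + 2)) := swp X (tpow X n)

theorem step {n : ℕ} (p : St X n) :
    ∃ h : Equiv.Perm (Fin (n + 2)) →* End (tpow X (n + 2)),
      (∀ σ, h (up σ) = (X ◁ (p.1.2 σ : tpow X (n + 1) ⟶ tpow X (n + 1)) :
        X ⊗ tpow X (n + 1) ⟶ X ⊗ tpow X (n + 1))) ∧ CC X (n + 1) h := by
  obtain ⟨⟨f, g⟩, h1, h2⟩ := p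
  simp only at h1 h2
  have hc : ∀ τ : Equiv.Perm (Fin n), sw X n * ((ww X n).comp g) (up τ) =
        ((ww X n).comp g) (up τ) * sw X n := by
    intro τ
    change wl X _ (g (up τ)) ≫ swp X (tpow X n) = swp X (tpow X n) ≫ wl X _ (g (up τ))
    rw [h1]
    exact (Pool.Agent.W225.KC.swp_nat X (f τ)).symm
  have hb : n ≠ 0 → sw X n * ((ww X n).comp g) (Equiv.swap 0 1) * sw X n =
      ((ww X n).comp g) (Equiv.swap 0 1) * sw X n * ((ww X n).comp g) (Equiv.swap 0 1) := by
    intro hn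
    rcases n with _ | m
    · exact absurd rfl hn
    · have h3 : g (Equiv.swap 0 1) = swp X (tpow X m) := h2
      change swp X _ ≫ wl X _ (g (Equiv.swap 0 1)) ≫ swp X _ =
        wl X _ (g (Equiv.swap 0 1)) ≫ swp X _ ≫ wl X _ (g (Equiv.swap 0 1))
      rw [h3]
      exact Pool.Agent.W225.KC.swp_braid X (tpow X m)
  obtain ⟨Ψ, hΨ1, hΨ2⟩ := extend ((ww X n).comp g) (sw X n)
    (Pool.Agent.W225.KC.swp_swp X (tpow X n)) hc hb
  exact ⟨Ψ, hΨ1, hΨ2⟩

/-- the stages of the construction. -/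
noncomputable def st : ∀ n : ℕ, St X n
  | 0 => ⟨(1, 1), fun _ => (MonoidalCategory.whiskerLeft_id _ _).symm, trivial⟩
  | n + 1 => ⟨((st n).1.2, (step X (st n)).choose), (step X (st n)).choose_spec⟩

theorem exists_permAction [Preadditive T] : ∃ φ : ∀ n : ℕ, Equiv.Perm (Fin n) →* End (tpow X n),
    PermAction X φ := by
  refine ⟨fun n => (st X n).1.1, fun n σ => ?_, fun n => ?_⟩
  · exact (st X n).2.1 σ
  · exact (step X (st X n)).choose_spec.2

end act

end Pool.Agent.W481.KCAct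

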